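import Pool.Agent.N753.DR.Stm

set_option autoImplicit false
set_option linter.unusedSectionVars false

namespace Pool.Agent.N262.DR

open NumberField IsDedekindDomain Module Polynomial Pool.Agent.N753.DR

section box

variable {K : Type} [Field K] [NumberField K]

theorem sz_le_iff {z : 𝓞 K} {B : ℕ} :
    sz z ≤ B ↔ ∀ i, |(RingOfIntegers.basis K).repr z i| ≤ (B : ℤ) := by
  unfold sz
  rw [Finset.sup_le_iff]
  constructor
  · intro h i
    have := h i (Finset.mem_univ _)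
    rw [Int.abs_eq_natAbs]
    exact_mod_cast this
  · intro h i _
    have := h i
    rw [Int.abs_eq_natAbs] at this
    exact_mod_cast this

theorem sz_sub (z z' : 𝓞 K) : sz (z - z') ≤ sz z + sz z' := by
  rw [sz_le_iff]
  intro i
  have h1 := (sz_le_iff (z := z)).mp le_rfl i
  have h2 := (sz_le_iff (z := z')).mp le_rfl i
  rw [map_sub, Finsupp.sub_apply]
  have := abs_sub ((RingOfIntegers.basis K).repr z i) ((RingOfIntegers.basis K).repr z' i)
  push_cast
  linarith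

theorem sz_nat (m : ℕ) : sz (m : 𝓞 K) ≤ m * sz (1 : 𝓞 K) := by
  rw [sz_le_iff]
  intro i
  have h2 := (sz_le_iff (z := (1 : 𝓞 K))).mp le_rfl i
  have h : (m : 𝓞 K) = (m : ℤ) • (1 : 𝓞 K) := by simp
  rw [h, map_smul, Finsupp.smul_apply, smul_eq_mul, abs_mul]
  push_cast
  rw [Nat.abs_cast]
  exact mul_le_mul_of_nonneg_left h2 (by positivity)

theorem Bx_aux (m B : ℕ) : (Bx K m B).Finite ∧
    (Bx K m B).ncard ≤ (2 * B + 1) ^ (finrank ℚ K * m) := by
  classical
  let ι := Module.Free.ChooseBasisIndex ℤ (𝓞 K)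
  let f : (Fin m → 𝓞 K) → (Fin m → ι → ℤ) := fun c j i => (RingOfIntegers.basis K).repr (c j) i
  let T : Finset (Fin m → ι → ℤ) := Fintype.piFinset fun _ => Fintype.piFinset fun _ =>
    Finset.Icc (-(B : ℤ)) B
  have hmap : ∀ c ∈ Bx K m B, f c ∈ (T : Set (Fin m → ι → ℤ)) := by
    intro c hc
    rw [Finset.mem_coe, Fintype.mem_piFinset]
    intro j
    rw [Fintype.mem_piFinset]
    intro i
    have := sz_le_iff.mp (hc j) i
    rw [abs_le] at this
    rw [Finset.mem_Icc]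
    exact this
  have hinj : Set.InjOn f (Bx K m B) := by
    intro c _ c' _ h
    funext j
    apply (RingOfIntegers.basis K).repr.injective
    ext i
    exact congrFun (congrFun h j) i
  have hfin : (T : Set (Fin m → ι → ℤ)).Finite := T.finite_toSet
  refine ⟨Set.Finite.of_injOn hmap hinj hfin, ?_⟩
  refine (Set.ncard_le_ncard_of_injOn f hmap hinj hfin).trans (le_of_eq ?_)
  rw [Set.ncard_coe_finset]
  have hc : Fintype.card ι = finrank ℚ K := by
    rw [← RingOfIntegers.rank K]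
    exact (Module.finrank_eq_card_chooseBasisIndex ℤ (𝓞 K)).symm
  simp only [T, Fintype.card_piFinset, Finset.prod_const, Finset.card_univ, Fintype.card_fin,
    Int.card_Icc]
  rw [hc, pow_mul]
  congr 2
  omega

theorem Bx_finite (m B : ℕ) : (Bx K m B).Finite := (Bx_aux m B).1

theorem Bx_card (m B : ℕ) : (Bx K m B).ncard ≤ (2 * B + 1) ^ (finrank ℚ K * m) := (Bx_aux m B).2

/-- averaging over the constant coefficient -/
theorem averaging {r B A : ℕ} {S : Set (Fin (r + 1) → 𝓞 K)} (hS : S ⊆ Bx K (r + 1) B)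
    (hA : ∀ Q : Fin (r + 1) → 𝓞 K, ∀ T : Finset ℕ,
      (∀ m ∈ T, m < B ∧ (Q + Pi.single 0 (m : 𝓞 K)) ∈ S) → T.card ≤ A) :
    S.ncard * B ≤ A * (Bx K (r + 1) ((1 + sz (1 : 𝓞 K)) * B)).ncard := by
  classical
  have hSf : S.Finite := (Bx_finite _ _).subset hS
  have hBf := Bx_finite (K := K) (r + 1) ((1 + sz (1 : 𝓞 K)) * B)
  rw [Set.ncard_eq_toFinset_card S hSf, Set.ncard_eq_toFinset_card _ hBf]
  have hr : B = (Finset.range B).card := (Finset.card_range B).symm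
  have h1 : hSf.toFinset.card * B = (hSf.toFinset ×ˢ Finset.range B).card := by
    rw [Finset.card_product, Finset.card_range]
  rw [h1]
  refine Finset.card_le_mul_card_image_of_maps_to
    (f := fun p : (Fin (r + 1) → 𝓞 K) × ℕ => p.1 - Pi.single 0 (p.2 : 𝓞 K)) ?_ A ?_
  · rintro ⟨c, m⟩ hcm
    rw [Finset.mem_product, Set.Finite.mem_toFinset, Finset.mem_range] at hcm
    rw [Set.Finite.mem_toFinset]
    intro j
    have hj := hS hcm.1 j
    refine (sz_sub _ _).trans ?_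
    have h3 : sz ((Pi.single 0 (m : 𝓞 K) : Fin (r + 1) → 𝓞 K) j) ≤ m * sz (1 : 𝓞 K) := by
      by_cases h0 : j = 0
      · subst h0
        rw [Pi.single_eq_same]
        exact sz_nat m
      · rw [Pi.single_eq_of_ne h0]
        have : sz (0 : 𝓞 K) = 0 := by
          apply Nat.eq_zero_of_le_zero
          rw [sz_le_iff]
          intro i; simp
        rw [this]; exact Nat.zero_le _
    have h4 : m * sz (1 : 𝓞 K) ≤ B * sz (1 : 𝓞 K) := Nat.mul_le_mul_right _ hcm.2.le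
    calc sz (c j) + sz ((Pi.single 0 (m : 𝓞 K) : Fin (r + 1) → 𝓞 K) j)
        ≤ B + B * sz (1 : 𝓞 K) := Nat.add_le_add hj (h3.trans h4)
      _ = _ := by ring
  · intro Q _
    let P := (hSf.toFinset ×ˢ Finset.range B).filter
      (fun p : (Fin (r + 1) → 𝓞 K) × ℕ => p.1 - Pi.single 0 (p.2 : 𝓞 K) = Q)
    have h2 : P.card = (P.image Prod.snd).card := by
      symm
      apply Finset.card_image_of_injOn
      rintro ⟨c, m⟩ h ⟨c', m'⟩ h' hmm
      rw [Finset.mem_coe, Finset.mem_filter] at h h'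
      simp only at hmm
      subst hmm
      have := h.2.trans h'.2.symm
      simp only at this
      rw [sub_left_inj] at this
      rw [this]
    show P.card ≤ A
    rw [h2]
    apply hA Q
    intro m hm
    rw [Finset.mem_image] at hm
    obtain ⟨⟨c, m'⟩, hc, rfl⟩ := hm
    rw [Finset.mem_filter, Finset.mem_product, Set.Finite.mem_toFinset, Finset.mem_range] at hc
    refine ⟨hc.1.2, ?_⟩
    have : Q + Pi.single 0 (m' : 𝓞 K) = c := by rw [← hc.2]; simp
    simp only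
    rw [this]
    exact hc.1.1

/-- the conclusion of the averaging: at most `A₀ * B ^ (1 - ν)` values of the constant coefficient
in each class -/
theorem average_bound {r : ℕ} {ν A₀ : ℝ} (hA0 : 0 ≤ A₀) (S : ℕ → Set (Fin (r + 1) → 𝓞 K))
    (hS : ∀ B, S B ⊆ Bx K (r + 1) B)
    (hA : ∀ B : ℕ, 1 ≤ B → ∀ Q : Fin (r + 1) → 𝓞 K, ∀ T : Finset ℕ,
      (∀ m ∈ T, m < B ∧ (Q + Pi.single 0 (m : 𝓞 K)) ∈ S B) →
        (T.card : ℝ) ≤ A₀ * (B : ℝ) ^ (1 - ν)) :
    ∃ C : ℝ, ∀ B : ℕ, 1 ≤ B → ((S B).ncard : ℝ) ≤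
      C * (B : ℝ) ^ ((finrank ℚ K : ℝ) * (r + 1) - ν) := by
  refine ⟨A₀ * (2 * (1 + sz (1 : 𝓞 K)) + 1 : ℝ) ^ (finrank ℚ K * (r + 1)), fun B hB => ?_⟩
  have hB0 : (0 : ℝ) < B := by exact_mod_cast hB
  have hB1 : (1 : ℝ) ≤ B := by exact_mod_cast hB
  set A : ℕ := ⌊A₀ * (B : ℝ) ^ (1 - ν)⌋₊ with hAdef
  have h1 := averaging (hS B) (A := A) (fun Q T hT => Nat.le_floor (hA B hB Q T hT))
  have h2 : (A : ℝ) ≤ A₀ * (B : ℝ) ^ (1 - ν) := Nat.floor_le (by positivity)
  have h3 := Bx_card (K := K) (r + 1) ((1 + sz (1 : 𝓞 K)) * B)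
  have h4 : ((S B).ncard : ℝ) * B ≤ (A₀ * (B : ℝ) ^ (1 - ν)) *
      ((2 * (1 + sz (1 : 𝓞 K)) + 1 : ℝ) ^ (finrank ℚ K * (r + 1)) *
        (B : ℝ) ^ (finrank ℚ K * (r + 1))) := by
    calc ((S B).ncard : ℝ) * B ≤ (A : ℝ) *
          ((Bx K (r + 1) ((1 + sz (1 : 𝓞 K)) * B)).ncard : ℝ) := by exact_mod_cast h1
      _ ≤ (A₀ * (B : ℝ) ^ (1 - ν)) *
          ((2 * ((1 + sz (1 : 𝓞 K)) * B) + 1 : ℕ) ^ (finrank ℚ K * (r + 1)) : ℕ) := by
          apply mul_le_mul h2 (by exact_mod_cast h3) (by positivity) (by positivity)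
      _ ≤ _ := by
          apply mul_le_mul_of_nonneg_left _ (by positivity)
          rw [← mul_pow]
          push_cast
          apply pow_le_pow_left₀ (by positivity)
          nlinarith
  have h5 : (B : ℝ) ^ ((finrank ℚ K : ℝ) * (r + 1) - ν) * B =
      (B : ℝ) ^ (1 - ν) * (B : ℝ) ^ (finrank ℚ K * (r + 1)) := by
    rw [← Real.rpow_natCast (B : ℝ) (finrank ℚ K * (r + 1)), ← Real.rpow_add hB0]
    nth_rewrite 2 [← Real.rpow_one (B : ℝ)]
    rw [← Real.rpow_add hB0]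
    congr 1
    push_cast
    ring
  have h6 : ((S B).ncard : ℝ) * B ≤
      (A₀ * (2 * (1 + sz (1 : 𝓞 K)) + 1 : ℝ) ^ (finrank ℚ K * (r + 1)) *
      (B : ℝ) ^ ((finrank ℚ K : ℝ) * (r + 1) - ν)) * B := by
    refine h4.trans (le_of_eq ?_)
    rw [mul_assoc (A₀ * _), h5]
    ring
  exact le_of_mul_le_mul_right h6 hB0

end box

end Pool.Agent.N262.DR
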