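import Pool.Agent.N262.DR.HtInv
import Pool.Agent.N262.DR.Box

set_option autoImplicit false
set_option linter.unusedSectionVars false

namespace Pool.Agent.N262.DR

open NumberField IsDedekindDomain Module Polynomial Pool.Agent.N753.DR

theorem absNorm_pos' {K : Type} [Field K] [NumberField K] (v : HeightOneSpectrum (𝓞 K)) :
    (1 : ℝ) ≤ (Ideal.absNorm v.asIdeal : ℝ) := by
  have : Ideal.absNorm v.asIdeal ≠ 0 := by
    rw [Ne, Ideal.absNorm_eq_zero_iff]
    exact v.ne_bot
  exact_mod_cast Nat.one_le_iff_ne_zero.mpr this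

theorem lN_nonneg {K : Type} [Field K] [NumberField K] (v : HeightOneSpectrum (𝓞 K)) :
    0 ≤ lN v := Real.log_nonneg (absNorm_pos' v)

section

variable {K M : Type} [Field K] [NumberField K] [Field M] [NumberField M] [Algebra K M]

theorem lN_under_le (u : HeightOneSpectrum (𝓞 M)) :
    lN (HeightOneSpectrum.under (𝓞 K) u) ≤ lN u := by
  unfold lN
  have h0 := absNorm_pos' (HeightOneSpectrum.under (𝓞 K) u)
  apply Real.log_le_log (by linarith)
  rw [Nat.cast_le]
  have hne : Ideal.absNorm u.asIdeal ≠ 0 := by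
    rw [Ne, Ideal.absNorm_eq_zero_iff]
    exact u.ne_bot
  rw [HeightOneSpectrum.under_asIdeal, Ideal.absNorm_apply, Ideal.absNorm_apply,
    Submodule.cardQuot_apply, Submodule.cardQuot_apply]
  rw [Ideal.absNorm_apply, Submodule.cardQuot_apply] at hne
  have : Finite (𝓞 M ⧸ u.asIdeal) := Nat.finite_of_card_ne_zero hne
  exact Nat.card_le_card_of_injective _ (Ideal.quotientMap_injective
    (f := algebraMap (𝓞 K) (𝓞 M)) (I := u.asIdeal))

theorem sum_under_le (W : Finset (HeightOneSpectrum (𝓞 M)))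
    (W' : Finset (HeightOneSpectrum (𝓞 K)))
    (h : ∀ v ∈ W', ∃ u ∈ W, HeightOneSpectrum.under (𝓞 K) u = v) :
    ∑ v ∈ W', lN v ≤ ∑ u ∈ W, lN u := by
  classical
  have h1 : ∑ v ∈ W', ∑ u ∈ W with HeightOneSpectrum.under (𝓞 K) u = v, lN u ≤
      ∑ u ∈ W, lN u := by
    have hd : (W' : Set (HeightOneSpectrum (𝓞 K))).PairwiseDisjoint
        fun v => W.filter fun u => HeightOneSpectrum.under (𝓞 K) u = v := by
      intro v _ v' _ hvv
      rw [Function.onFun, Finset.disjoint_left]
      intro u hu hu'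
      rw [Finset.mem_filter] at hu hu'
      exact hvv (hu.2.symm.trans hu'.2)
    rw [← Finset.sum_biUnion hd]
    apply Finset.sum_le_sum_of_subset_of_nonneg
    · intro u hu
      rw [Finset.mem_biUnion] at hu
      obtain ⟨v, _, hu⟩ := hu
      exact (Finset.mem_filter.mp hu).1
    · intro u _ _; exact lN_nonneg u
  refine le_trans (Finset.sum_le_sum fun v hv => ?_) h1
  obtain ⟨u, hu, rfl⟩ := h v hv
  refine (lN_under_le u).trans ?_
  exact Finset.single_le_sum (f := fun u => lN u) (fun u _ => lN_nonneg u)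
    (Finset.mem_filter.mpr ⟨hu, rfl⟩)

theorem over_eq {u : HeightOneSpectrum (𝓞 M)} {v : HeightOneSpectrum (𝓞 K)}
    (h : u.asIdeal.LiesOver v.asIdeal) : HeightOneSpectrum.under (𝓞 K) u = v := by
  apply HeightOneSpectrum.ext
  rw [HeightOneSpectrum.under_asIdeal]
  exact h.over.symm

end

theorem badS_finite {K : Type} [Field K] [NumberField K] (S : Finset ℕ) :
    {v : HeightOneSpectrum (𝓞 K) | ∃ p ∈ S, p ≠ 0 ∧ (p : 𝓞 K) ∈ v.asIdeal}.Finite := by
  have h : {v : HeightOneSpectrum (𝓞 K) | ∃ p ∈ S, p ≠ 0 ∧ (p : 𝓞 K) ∈ v.asIdeal} ⊆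
      ⋃ p ∈ (S.filter fun p => p ≠ 0), {v : HeightOneSpectrum (𝓞 K) |
        v.asIdeal ∣ Ideal.span {(p : 𝓞 K)}} := by
    rintro v ⟨p, hp, hp0, hv⟩
    rw [Set.mem_iUnion₂]
    refine ⟨p, Finset.mem_filter.mpr ⟨hp, hp0⟩, ?_⟩
    show v.asIdeal ∣ Ideal.span {(p : 𝓞 K)}
    rw [Ideal.dvd_span_singleton]
    exact hv
  refine Set.Finite.subset (Set.Finite.biUnion (Finset.finite_toSet _) fun p hp => ?_) h
  apply Ideal.finite_factors
  rw [Ne, Ideal.zero_eq_bot, Ideal.span_singleton_eq_bot]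
  have := (Finset.mem_filter.mp hp).2
  exact_mod_cast this

/-- the polynomial determined by its coefficients up to a scalar -/
noncomputable def gp {K : Type} [Field K] {r : ℕ} (c : Fin (r + 1) → 𝓞 K) : K[X] :=
  C ((c (Fin.last r) : K)⁻¹) * ∑ i : Fin (r + 1), C (c i : K) * X ^ (i : ℕ)

theorem gp_eq {K : Type} [Field K] [NumberField K] {r : ℕ} {c : Fin (r + 1) → 𝓞 K} {p : K[X]}
    (hp : p.Monic) (hr : p.natDegree = r) {l : K} (hl : l ≠ 0)
    (h : ∀ i, (c i : K) = l * p.coeff i) : gp c = p := by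
  unfold gp
  have h1 : p.coeff r = 1 := by rw [← hr]; exact hp
  rw [h (Fin.last r), Fin.val_last, h1, mul_one]
  have h2 : p = ∑ i : Fin (r + 1), C (p.coeff i) * X ^ (i : ℕ) := by
    conv_lhs => rw [p.as_sum_range_C_mul_X_pow, hr]
    exact Finset.sum_range _
  conv_rhs => rw [h2]
  rw [Finset.mul_sum]
  refine Finset.sum_congr rfl fun i _ => ?_
  rw [h i, ← mul_assoc, ← C_mul, ← mul_assoc, inv_mul_cancel₀ hl, one_mul]

/-- the number field defined by `F`, a generator which is an integer divided by `a` -/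
theorem exists_field {K : Type} [Field K] [NumberField K] (F : K[X]) (hF : F.Monic)
    (hi : Irreducible F) : ∃ (L : Type) (_ : Field L) (_ : NumberField L) (_ : Algebra K L)
      (θ : 𝓞 L) (a : ℕ), IntermediateField.adjoin K {(θ : L)} = ⊤ ∧ a ≠ 0 ∧
      finrank K L = F.natDegree ∧ minpoly K ((θ : L) / a) = F := by
  have : Fact (Irreducible F) := ⟨hi⟩
  have hfd : FiniteDimensional K (AdjoinRoot F) := (AdjoinRoot.powerBasis hF.ne_zero).finite
  have hch : CharZero (AdjoinRoot F) := charZero_of_injective_algebraMap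
    (algebraMap K (AdjoinRoot F)).injective
  have hfq : FiniteDimensional ℚ (AdjoinRoot F) := Module.Finite.trans K (AdjoinRoot F)
  have hN : NumberField (AdjoinRoot F) := { to_charZero := hch, to_finiteDimensional := hfq }
  have halg : IsAlgebraic ℤ (AdjoinRoot.root F) := by
    have : IsAlgebraic ℚ (AdjoinRoot.root F) := Algebra.IsAlgebraic.isAlgebraic _
    exact (IsFractionRing.isAlgebraic_iff ℤ ℚ _).mpr this
  obtain ⟨y, hy0, hy⟩ := halg.exists_integral_multiple
  have hint : IsIntegral ℤ ((y.natAbs : AdjoinRoot F) * AdjoinRoot.root F) := by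
    rcases Int.natAbs_eq y with h | h
    · have e : ((y.natAbs : AdjoinRoot F)) * AdjoinRoot.root F = y • AdjoinRoot.root F := by
        conv_rhs => rw [h]
        simp
      rw [e]; exact hy
    · have e : ((y.natAbs : AdjoinRoot F)) * AdjoinRoot.root F = -(y • AdjoinRoot.root F) := by
        conv_rhs => rw [h]
        simp
      rw [e]; exact hy.neg
  have ha0 : y.natAbs ≠ 0 := by omega
  have ha0' : (y.natAbs : AdjoinRoot F) ≠ 0 := by exact_mod_cast ha0
  refine ⟨AdjoinRoot F, inferInstance, hN, inferInstance, ⟨_, hint⟩, y.natAbs, ?_, ha0, ?_, ?_⟩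
  · rw [eq_top_iff]
    have h1 : IntermediateField.adjoin K {AdjoinRoot.root F} = ⊤ :=
      IntermediateField.adjoin_eq_top_of_algebra _ _ AdjoinRoot.adjoinRoot_eq_top
    rw [← h1, IntermediateField.adjoin_le_iff, Set.singleton_subset_iff]
    have h2 := IntermediateField.mem_adjoin_simple_self K
      ((y.natAbs : AdjoinRoot F) * AdjoinRoot.root F)
    have h3 : AdjoinRoot.root F = (y.natAbs : AdjoinRoot F)⁻¹ *
        ((y.natAbs : AdjoinRoot F) * AdjoinRoot.root F) := by
      rw [← mul_assoc, inv_mul_cancel₀ ha0', one_mul]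
    have h4 := mul_mem (inv_mem (natCast_mem (IntermediateField.adjoin K
      {(y.natAbs : AdjoinRoot F) * AdjoinRoot.root F}) y.natAbs)) h2
    rw [← h3] at h4
    exact h4
  · rw [(AdjoinRoot.powerBasis hF.ne_zero).finrank, AdjoinRoot.powerBasis_dim]
  · have e : ((y.natAbs : AdjoinRoot F) * AdjoinRoot.root F) / (y.natAbs : AdjoinRoot F) =
        AdjoinRoot.root F := by
      rw [mul_comm, mul_div_assoc, div_self ha0', mul_one]
    show minpoly K (((y.natAbs : AdjoinRoot F) * AdjoinRoot.root F) /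
      (y.natAbs : AdjoinRoot F)) = F
    rw [e, AdjoinRoot.minpoly_root hF.ne_zero, hF.leadingCoeff, inv_one, C_1, mul_one]

theorem pow_bound {c B y E : ℝ} (hc : 1 ≤ c) (hy : 0 < y) (h1 : y ≤ B) (h2 : B ≤ c * y) :
    B ^ E ≤ c ^ |E| * y ^ E := by
  have hB : 0 < B := lt_of_lt_of_le hy h1
  have hc0 : 0 < c := by linarith
  rcases le_total 0 E with hE | hE
  · rw [abs_of_nonneg hE, ← Real.mul_rpow hc0.le hy.le]
    exact Real.rpow_le_rpow hB.le h2 hE
  · have h3 : B ^ E ≤ y ^ E := Real.rpow_le_rpow_of_nonpos hy h1 hE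
    have h4 : 1 ≤ c ^ |E| := Real.one_le_rpow hc (abs_nonneg _)
    calc B ^ E ≤ 1 * y ^ E := by rw [one_mul]; exact h3
      _ ≤ _ := by gcongr

theorem deg (h1 : StmCore) (h2 : StmRed) (h3 : StmLink) : StmDeg := by
  classical
  intro K _ _ r hr S F hFm hFi hFd κ hκ
  rcases le_or_gt (F.natDegree : ℝ) κ with hdk | hdk
  · refine ⟨1, 0, one_pos, fun U hU => ?_⟩
    have he : {p : K[X] | BadF r S F κ p ∧ AtH r U p} = ∅ := by
      rw [Set.eq_empty_iff_forall_notMem]
      rintro p ⟨⟨M, _, _, _, x, -, -, -, W, -, hW⟩, -⟩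
      have e1 : 0 ≤ ∑ w ∈ W, lN w := Finset.sum_nonneg fun w _ => lN_nonneg w
      have e2 : ((F.natDegree : ℝ) - κ) * Height.logHeight₁ x ≤ 0 :=
        mul_nonpos_of_nonpos_of_nonneg (by linarith) (Height.zero_le_logHeight₁ x)
      linarith
    rw [he]
    simp
  obtain ⟨L, _, _, _, θ, a, htop, ha, hfr, hmp⟩ := exists_field F hFm hFi
  obtain ⟨Bad0, hB0⟩ := h1 K L θ a r htop ha hr (by rw [hfr]; exact hFd)
  obtain ⟨BadR, C0, hC0, hR⟩ := h2 K r hr
  obtain ⟨BadL, hL⟩ := h3 K L θ a r ha hr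
  set BadS := (badS_finite (K := K) S).toFinset with hBadS
  set Bad := Bad0 ∪ BadR ∪ BadL ∪ BadS with hBad
  obtain ⟨ν, C1, hν, hcore⟩ := hB0 Bad (fun v hv => by
    simp only [hBad, Finset.mem_union]; tauto) κ hκ
  set n : ℝ := (finrank ℚ K : ℝ) with hn
  have hn0 : 0 < n := by
    rw [hn]; exact_mod_cast (Module.finrank_pos : 0 < finrank ℚ K)
  set c0 : ℝ := max C0 1 with hc0
  have hc01 : 1 ≤ c0 := le_max_right _ _
  refine ⟨ν / n, |C1| * (2 * c0) ^ |n * (r + 1) - ν|, by positivity, fun U hU => ?_⟩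
  set y : ℝ := Real.exp (U / n) with hy
  have hy1 : 1 ≤ y := Real.one_le_exp (by positivity)
  set B : ℕ := ⌈c0 * y⌉₊ with hB
  have hBl : c0 * y ≤ B := Nat.le_ceil _
  have hBu : (B : ℝ) ≤ 2 * c0 * y := by
    have := Nat.ceil_lt_add_one (a := c0 * y) (by positivity)
    have : 1 ≤ c0 * y := one_le_mul_of_one_le_of_one_le hc01 hy1
    linarith
  have hyB : y ≤ B := by
    have : 1 * y ≤ c0 * y := mul_le_mul_of_nonneg_right hc01 (by positivity)
    linarith
  have hB1 : 1 ≤ B := by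
    have : (1 : ℝ) ≤ B := hy1.trans hyB
    exact_mod_cast this
  have hlog : U ≤ n * Real.log B := by
    have : U / n ≤ Real.log B := by
      rw [← Real.log_exp (U / n)]
      exact Real.log_le_log (Real.exp_pos _) hyB
    rw [div_le_iff₀ hn0] at this
    linarith
  set E := {c ∈ Bx K (r + 1) B | ∃ W : Finset (HeightOneSpectrum (𝓞 K)),
      (∀ v ∉ Bad, ∀ w : HeightOneSpectrum (𝓞 L), w.asIdeal.LiesOver v.asIdeal →
        ev a θ c ∈ w.asIdeal → v ∈ W) ∧
      ∑ v ∈ W, lN v ≤ (finrank K L - κ) * ((finrank ℚ K : ℝ) * Real.log B)} with hE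
  have hEf : E.Finite := (Bx_finite (K := K) (r + 1) B).subset fun c hc => hc.1
  have hsub : {p : K[X] | BadF r S F κ p ∧ AtH r U p} ⊆ gp '' E := by
    rintro p ⟨⟨M, _, _, _, x, hM, hx, hxp, W, hW, hWs⟩, ⟨M', _, _, _, x', hM', hx', hxp', hU'⟩⟩
    have hht : Height.logHeight₁ x ≤ U := by
      rw [ht_inv x x' hM hx hM' (hxp.trans hxp'.symm)]
      exact hU'
    obtain ⟨c, l, hl, hcl, hprim, hsz⟩ := hR M x hM hx
    have hxint : IsIntegral K x := by
      have : FiniteDimensional K M := Module.Finite.of_restrictScalars_finite ℚ K M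
      exact IsIntegral.of_finite K x
    refine ⟨c, ⟨?_, ?_⟩, ?_⟩
    · intro j
      have h4 := hsz j
      have h5 : Real.exp (Height.logHeight₁ x / n) ≤ y :=
        Real.exp_le_exp.mpr (div_le_div_of_nonneg_right hht hn0.le)
      have h6 : (sz (c j) : ℝ) ≤ B := by
        refine h4.trans (le_trans ?_ hBl)
        exact mul_le_mul (le_max_left _ _) h5 (Real.exp_pos _).le (by positivity)
      exact_mod_cast h6
    · refine ⟨W.image fun u => HeightOneSpectrum.under (𝓞 K) u, ?_, ?_⟩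
      · intro v hv w hw hev
        have hvR : v ∉ BadR := fun h => hv (by simp only [hBad, Finset.mem_union]; tauto)
        have hvL : v ∉ BadL := fun h => hv (by simp only [hBad, Finset.mem_union]; tauto)
        have hvS : v ∉ BadS := fun h => hv (by simp only [hBad, Finset.mem_union]; tauto)
        obtain ⟨u, hu, hux, huF⟩ := hL M x c l hM hx hl hcl v hvL (hprim v hvR) w hw hev
        rw [hmp] at huF
        have hunder := over_eq hu
        rw [Finset.mem_image]
        refine ⟨u, hW u ⟨?_, hux, huF⟩, hunder⟩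
        intro p hp hp0 hmem
        apply hvS
        rw [hBadS, Set.Finite.mem_toFinset]
        refine ⟨p, hp, hp0, ?_⟩
        rw [← hunder, HeightOneSpectrum.under_asIdeal, Ideal.under_def, Ideal.mem_comap,
          map_natCast]
        exact hmem
      · have h4 : ∑ v ∈ W.image (fun u => HeightOneSpectrum.under (𝓞 K) u), lN v ≤
            ∑ u ∈ W, lN u := sum_under_le W _ fun v hv => Finset.mem_image.mp hv
        refine h4.trans (hWs.le.trans ?_)
        rw [hfr]
        exact mul_le_mul_of_nonneg_left (hht.trans hlog) (by linarith)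
    · rw [← hxp]
      exact gp_eq (minpoly.monic hxint) hx hl hcl
  have hfin : (gp '' E).Finite := hEf.image _
  refine ⟨hfin.subset hsub, ?_⟩
  have h4 : ({p : K[X] | BadF r S F κ p ∧ AtH r U p}.ncard : ℝ) ≤ (E.ncard : ℝ) := by
    exact_mod_cast (Set.ncard_le_ncard hsub hfin).trans (Set.ncard_image_le hEf)
  refine h4.trans ((hcore B hB1).trans ?_)
  have h5 := pow_bound (c := 2 * c0) (B := B) (y := y) (E := n * (r + 1) - ν) (by linarith)
    (by positivity) hyB hBu
  have h6 : y ^ (n * (r + 1) - ν) = Real.exp ((r + 1 - ν / n) * U) := by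
    rw [hy, ← Real.exp_mul]
    congr 1
    field_simp
  rw [h6] at h5
  calc C1 * (B : ℝ) ^ (n * (r + 1) - ν) ≤ |C1| * (B : ℝ) ^ (n * (r + 1) - ν) := by
        gcongr; exact le_abs_self _
    _ ≤ |C1| * ((2 * c0) ^ |n * (r + 1) - ν| * Real.exp ((r + 1 - ν / n) * U)) := by gcongr
    _ = _ := by ring

end Pool.Agent.N262.DR
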