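import Pool.Agent.N753.DR.Stm
import Pool.Agent.W469.CV.MH

set_option autoImplicit false
set_option linter.unusedSectionVars false

namespace Pool.Agent.N262.DR

open NumberField IsDedekindDomain Module Polynomial Pool.Agent.N753.DR

open Pool.Agent.H58P (Qb ht) in
/-- the height is invariant under isomorphisms -/
theorem ht_hom {M M' : Type} [Field M] [NumberField M] [Field M'] [NumberField M']
    (φ : M →+* M') (hd : finrank ℚ M = finrank ℚ M') (x : M) :
    Height.logHeight₁ (φ x) = Height.logHeight₁ x := by
  let ψ : M' →+* Qb := ((IsAlgClosed.lift : M' →ₐ[ℚ] Qb) : M' →+* Qb)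
  have h1 := Pool.Agent.W469.CV.MH.ht_emb M' ψ (φ x)
  have h2 := Pool.Agent.W469.CV.MH.ht_emb M (ψ.comp φ) x
  have h3 : ht (ψ (φ x)) = ht ((ψ.comp φ) x) := rfl
  rw [h1, h2, hd] at h3
  have hM : (0 : ℝ) < finrank ℚ M' := by exact_mod_cast Module.finrank_pos
  rw [Height.logHeight₁_eq_log_mulHeight₁, Height.logHeight₁_eq_log_mulHeight₁]
  exact (div_left_inj' hM.ne').mp h3

/-- two fields generated by roots of the same polynomial -/
theorem exists_hom {K M M' : Type} [Field K] [Field M] [Field M'] [Algebra K M]
    [Algebra K M'] [FiniteDimensional K M] (x : M) (x' : M')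
    (h1 : (minpoly K x).natDegree = finrank K M)
    (h : minpoly K x = minpoly K x') : ∃ φ : M →+* M', φ x = x' := by
  have hx : IsIntegral K x := IsIntegral.of_finite K x
  have : Fact (Irreducible (minpoly K x)) := ⟨minpoly.irreducible hx⟩
  have hne : minpoly K x ≠ 0 := minpoly.ne_zero hx
  let g : AdjoinRoot (minpoly K x) →+* M := AdjoinRoot.lift (algebraMap K M) x (by
    have := minpoly.aeval K x
    rwa [aeval_def] at this)
  let g' : AdjoinRoot (minpoly K x) →+* M' := AdjoinRoot.lift (algebraMap K M') x' (by
    have := minpoly.aeval K x'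
    rw [h]
    rwa [aeval_def] at this)
  have hgr : g (AdjoinRoot.root _) = x := AdjoinRoot.lift_root _
  have hgr' : g' (AdjoinRoot.root _) = x' := AdjoinRoot.lift_root _
  have hgo : ∀ a : K, g (algebraMap K _ a) = algebraMap K M a := fun a => AdjoinRoot.lift_of _
  have hbij : Function.Bijective g := by
    have hinj : Function.Injective g := g.injective
    refine ⟨hinj, ?_⟩
    let gl : AdjoinRoot (minpoly K x) →ₐ[K] M := { g with commutes' := hgo }
    have hf : FiniteDimensional K (AdjoinRoot (minpoly K x)) :=
      (AdjoinRoot.powerBasis hne).finite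
    have hfr : finrank K (AdjoinRoot (minpoly K x)) = finrank K M := by
      rw [(AdjoinRoot.powerBasis hne).finrank, AdjoinRoot.powerBasis_dim, h1]
    exact (LinearMap.injective_iff_surjective_of_finrank_eq_finrank (f := gl.toLinearMap) hfr).mp
      hinj
  let e : AdjoinRoot (minpoly K x) ≃+* M := RingEquiv.ofBijective g hbij
  refine ⟨g'.comp (e.symm : M →+* AdjoinRoot (minpoly K x)), ?_⟩
  have : e.symm x = AdjoinRoot.root _ := by
    rw [RingEquiv.symm_apply_eq]; exact hgr.symm
  rw [RingHom.comp_apply]
  show g' (e.symm x) = x'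
  rw [this, hgr']

/-- **invariance of the height**: it depends only on the minimal polynomial of a generator -/
theorem ht_inv {K M M' : Type} [Field K] [NumberField K] [Field M] [NumberField M] [Field M']
    [NumberField M'] [Algebra K M] [Algebra K M'] {r : ℕ} (x : M) (x' : M')
    (h1 : finrank K M = r) (h2 : (minpoly K x).natDegree = r) (h1' : finrank K M' = r)
    (h : minpoly K x = minpoly K x') : Height.logHeight₁ x = Height.logHeight₁ x' := by
  have hfd : FiniteDimensional K M := Module.Finite.of_restrictScalars_finite ℚ K M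
  obtain ⟨φ, hφ⟩ := exists_hom x x' (h2.trans h1.symm) h
  rw [← hφ]
  symm
  apply ht_hom
  rw [← Module.finrank_mul_finrank ℚ K M, ← Module.finrank_mul_finrank ℚ K M', h1, h1']

end Pool.Agent.N262.DR
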