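import Pool.Agent.N262.DR.Box

set_option autoImplicit false
set_option linter.unusedSectionVars false

namespace Pool.Agent.N262.DR

open NumberField IsDedekindDomain Module Polynomial Pool.Agent.N753.DR

theorem card_interval {T : Finset ℕ} {x R : ℝ} (hR : 0 ≤ R) (h : ∀ m ∈ T, |x + (m : ℝ)| ≤ R) :
    (T.card : ℝ) ≤ 2 * R + 1 := by
  rcases T.eq_empty_or_nonempty with rfl | hT
  · simp; linarith
  · have h1 : T ⊆ Finset.Icc (T.min' hT) (T.max' hT) := fun m hm =>
      Finset.mem_Icc.mpr ⟨T.min'_le m hm, T.le_max' m hm⟩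
    have h2 := Finset.card_le_card h1
    rw [Nat.card_Icc] at h2
    have h3 := T.min'_le _ (T.max'_mem hT)
    have h4 : (T.card : ℝ) ≤ (T.max' hT : ℝ) - (T.min' hT : ℝ) + 1 := by
      have : T.card + T.min' hT ≤ T.max' hT + 1 := by omega
      have : (T.card : ℝ) + (T.min' hT : ℝ) ≤ (T.max' hT : ℝ) + 1 := by exact_mod_cast this
      linarith
    have h5 := abs_le.mp (h _ (T.max'_mem hT))
    have h6 := abs_le.mp (h _ (T.min'_mem hT))
    linarith [h5.2, h6.1]

theorem card_separated {T : Finset ℕ} {B : ℕ} {g : ℝ} (hg : 0 < g) (hB : ∀ m ∈ T, m < B)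
    (h : ∀ m ∈ T, ∀ m' ∈ T, m < m' → g ≤ (m' : ℝ) - m) : (T.card : ℝ) ≤ B / g + 1 := by
  have hinj : Set.InjOn (fun m : ℕ => ⌊(m : ℝ) / g⌋₊) T := by
    have key : ∀ m ∈ T, ∀ m' ∈ T, m < m' → ⌊(m : ℝ) / g⌋₊ ≠ ⌊(m' : ℝ) / g⌋₊ := by
      intro m hm m' hm' hlt heq
      have h1 := h m hm m' hm' hlt
      have h2 : (m : ℝ) / g + 1 ≤ (m' : ℝ) / g := by
        rw [← sub_nonneg]
        have : (m' : ℝ) / g - (m / g + 1) = ((m' : ℝ) - m - g) / g := by field_simp; ring
        rw [this]
        exact div_nonneg (by linarith) hg.le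
      have h3 : ⌊(m : ℝ) / g⌋₊ + 1 ≤ ⌊(m' : ℝ) / g⌋₊ := by
        rw [← Nat.floor_add_one (by positivity)]
        exact Nat.floor_mono h2
      omega
    intro m hm m' hm' heq
    rcases lt_trichotomy m m' with hlt | heq' | hlt
    · exact absurd heq (key m hm m' hm' hlt)
    · exact heq'
    · exact absurd heq.symm (key m' hm' m hm hlt)
  have h1 : (T.image fun m : ℕ => ⌊(m : ℝ) / g⌋₊) ⊆ Finset.range (⌊(B : ℝ) / g⌋₊ + 1) := by
    intro x hx
    rw [Finset.mem_image] at hx
    obtain ⟨m, hm, rfl⟩ := hx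
    rw [Finset.mem_range, Nat.lt_succ_iff]
    apply Nat.floor_mono
    have : (m : ℝ) ≤ B := by exact_mod_cast (hB m hm).le
    gcongr
  have h2 := Finset.card_le_card h1
  rw [Finset.card_image_of_injOn hinj, Finset.card_range] at h2
  have h3 : (T.card : ℝ) ≤ (⌊(B : ℝ) / g⌋₊ : ℝ) + 1 := by exact_mod_cast h2
  have h4 := Nat.floor_le (a := (B : ℝ) / g) (by positivity)
  linarith

section

variable {K L : Type} [Field K] [NumberField K] [Field L] [NumberField L] [Algebra K L]

theorem ev_single (a : ℕ) (θ : 𝓞 L) {r : ℕ} (Q : Fin (r + 1) → 𝓞 K) (m : ℕ) :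
    ev a θ (Q + Pi.single 0 (m : 𝓞 K)) = ev a θ Q + (m : 𝓞 L) * (a : 𝓞 L) ^ r := by
  unfold ev
  rw [map_add]
  congr 1
  show (∑ i : Fin (r + 1), algebraMap (𝓞 K) (𝓞 L) ((Pi.single 0 (m : 𝓞 K) :
    Fin (r + 1) → 𝓞 K) i) * ((a : 𝓞 L) ^ (r - (i : ℕ)) * θ ^ (i : ℕ))) = _
  rw [Finset.sum_eq_single 0]
  · rw [Pi.single_eq_same, map_natCast]
    simp
  · intro i _ hi
    rw [Pi.single_eq_of_ne hi, map_zero, zero_mul]
  · intro h
    exact absurd (Finset.mem_univ _) h

end

theorem places : StmPlaces := by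
  intro K L _ _ _ _ _ θ a r ha hr κ hκ
  have ha1 : (1 : ℝ) ≤ a := by exact_mod_cast Nat.one_le_iff_ne_zero.mpr ha
  have har : (1 : ℝ) ≤ (a : ℝ) ^ r := one_le_pow₀ ha1
  constructor
  · intro σ
    obtain ⟨C, hC⟩ := average_bound (K := K) (r := r) (ν := min κ 1) (A₀ := 3) (by norm_num)
      (fun B => {c ∈ Bx K (r + 1) B | ‖σ (ev a θ c : L)‖ ≤ (B : ℝ) ^ (1 - κ)})
      (fun B c hc => hc.1) (by
        intro B hB Q T hT
        have hB1 : (1 : ℝ) ≤ B := by exact_mod_cast hB
        have h1 : ∀ m ∈ T, |(σ (ev a θ Q : L)).re / (a : ℝ) ^ r + (m : ℝ)| ≤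
            (B : ℝ) ^ (1 - κ) := by
          intro m hm
          have h2 := (hT m hm).2.2
          rw [ev_single] at h2
          have h3 : σ ((ev a θ Q + (m : 𝓞 L) * (a : 𝓞 L) ^ r : 𝓞 L) : L) =
              σ (ev a θ Q : L) + ((m : ℝ) * (a : ℝ) ^ r : ℝ) := by
            push_cast
            simp
          rw [h3] at h2
          have h4 := (Complex.abs_re_le_norm _).trans h2
          rw [Complex.add_re, Complex.ofReal_re] at h4
          have h5 : (σ (ev a θ Q : L)).re / (a : ℝ) ^ r + (m : ℝ) =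
              ((σ (ev a θ Q : L)).re + (m : ℝ) * (a : ℝ) ^ r) / (a : ℝ) ^ r := by
            field_simp
          rw [h5, abs_div, abs_of_pos (by positivity : (0 : ℝ) < (a : ℝ) ^ r)]
          exact (div_le_self (abs_nonneg _) har).trans h4
        have h2 := card_interval (by positivity) h1
        have h3 : (B : ℝ) ^ (1 - κ) ≤ (B : ℝ) ^ (1 - min κ 1) :=
          Real.rpow_le_rpow_of_exponent_le hB1 (by linarith [min_le_left κ 1])
        have h4 : (1 : ℝ) ≤ (B : ℝ) ^ (1 - min κ 1) :=
          Real.one_le_rpow hB1 (by linarith [min_le_right κ 1])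
        linarith)
    exact ⟨min κ 1, C, by positivity, hC⟩
  · intro w
    set D : ℕ := finrank ℚ L with hD
    have hD0 : 0 < D := Module.finrank_pos
    have hD0' : (0 : ℝ) < D := by exact_mod_cast hD0
    obtain ⟨C, hC⟩ := average_bound (K := K) (r := r) (ν := min 1 (κ / D))
      (A₀ := (a : ℝ) ^ r + 1) (by positivity)
      (fun B => {c ∈ Bx K (r + 1) B | ∃ e : ℕ, ev a θ c ∈ w.asIdeal ^ e ∧
        κ * Real.log B ≤ e * lN w ∧ 1 ≤ e})
      (fun B c hc => hc.1) (by
        intro B hB Q T hT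
        have hB1 : (1 : ℝ) ≤ B := by exact_mod_cast hB
        have hB0 : (0 : ℝ) < B := by linarith
        set g : ℝ := (B : ℝ) ^ (κ / D) / (a : ℝ) ^ r with hg
        have hg0 : 0 < g := by positivity
        have h1 : ∀ m ∈ T, ∀ m' ∈ T, m < m' → g ≤ (m' : ℝ) - m := by
          intro m hm m' hm' hlt
          obtain ⟨e, he, hke, -⟩ := (hT m hm).2.2
          obtain ⟨e', he', hke', -⟩ := (hT m' hm').2.2
          rw [ev_single] at he he'
          have h2 : ∃ f : ℕ, (((m' - m) * a ^ r : ℕ) : 𝓞 L) ∈ w.asIdeal ^ f ∧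
              κ * Real.log B ≤ f * lN w := by
            have key : ∀ f : ℕ, f ≤ e → f ≤ e' →
                (((m' - m) * a ^ r : ℕ) : 𝓞 L) ∈ w.asIdeal ^ f := by
              intro f hf hf'
              have k1 := Ideal.pow_le_pow_right hf he
              have k2 := Ideal.pow_le_pow_right hf' he'
              have k3 := Ideal.sub_mem _ k2 k1
              convert k3 using 1
              push_cast [Nat.cast_sub hlt.le]
              ring
            rcases le_total e e' with hee | hee
            · exact ⟨e, key e le_rfl hee, hke⟩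
            · exact ⟨e', key e' hee le_rfl, hke'⟩
          obtain ⟨f, hf, hkf⟩ := h2
          have h3 : Ideal.absNorm (w.asIdeal ^ f) ∣
              Ideal.absNorm (Ideal.span {(((m' - m) * a ^ r : ℕ) : 𝓞 L)}) := by
            apply Ideal.absNorm_dvd_absNorm_of_le
            rw [Ideal.span_singleton_le_iff_mem]
            exact hf
          rw [Ideal.absNorm_span_singleton, map_pow] at h3
          have h4 : Algebra.norm ℤ (((m' - m) * a ^ r : ℕ) : 𝓞 L) =
              (((m' - m) * a ^ r : ℕ) : ℤ) ^ D := by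
            have := Algebra.norm_algebraMap_of_basis (RingOfIntegers.basis L)
              (((m' - m) * a ^ r : ℕ) : ℤ)
            rw [← Module.finrank_eq_card_chooseBasisIndex ℤ (𝓞 L), RingOfIntegers.rank] at this
            rw [← this]
            congr 1
            simp
          rw [h4, Int.natAbs_pow, Int.natAbs_natCast] at h3
          have h5 : 0 < ((m' - m) * a ^ r) ^ D := by
            have : 0 < m' - m := by omega
            positivity
          have h6 := Nat.le_of_dvd h5 h3
          have h7 : (B : ℝ) ^ κ ≤ (((m' : ℝ) - m) * (a : ℝ) ^ r) ^ D := by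
            have e1 : (B : ℝ) ^ κ ≤ ((Ideal.absNorm w.asIdeal : ℝ)) ^ f := by
              have hw : (0 : ℝ) < (Ideal.absNorm w.asIdeal : ℝ) := by
                have : Ideal.absNorm w.asIdeal ≠ 0 := by
                  rw [Ne, Ideal.absNorm_eq_zero_iff]
                  exact w.ne_bot
                exact_mod_cast Nat.pos_of_ne_zero this
              rw [← Real.exp_log (show (0 : ℝ) < (B : ℝ) ^ κ by positivity),
                ← Real.exp_log (show (0 : ℝ) < (Ideal.absNorm w.asIdeal : ℝ) ^ f by positivity)]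
              rw [Real.exp_le_exp, Real.log_rpow hB0, Real.log_pow]
              exact hkf
            refine e1.trans ?_
            have e2 : ((Ideal.absNorm w.asIdeal : ℝ)) ^ f ≤ (((m' - m) * a ^ r : ℕ) : ℝ) ^ D := by
              exact_mod_cast h6
            refine e2.trans (le_of_eq ?_)
            push_cast [Nat.cast_sub hlt.le]
            ring
          have h8 : (B : ℝ) ^ (κ / D) ≤ ((m' : ℝ) - m) * (a : ℝ) ^ r := by
            have hnn : (0 : ℝ) ≤ ((m' : ℝ) - m) * (a : ℝ) ^ r := by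
              have : (m : ℝ) ≤ m' := by exact_mod_cast hlt.le
              apply mul_nonneg (by linarith) (by positivity)
            have e3 := Real.rpow_le_rpow (by positivity) h7
              (show (0 : ℝ) ≤ 1 / (D : ℝ) by positivity)
            rw [← Real.rpow_mul hB0.le, ← Real.rpow_natCast, ← Real.rpow_mul hnn] at e3
            rw [mul_one_div, mul_one_div_cancel hD0'.ne', Real.rpow_one] at e3
            exact e3
          rw [hg, div_le_iff₀ (by positivity)]
          exact h8
        have h2 := card_separated hg0 (fun m hm => (hT m hm).1) h1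
        have h3 : (B : ℝ) / g = (a : ℝ) ^ r * (B : ℝ) ^ (1 - κ / D) := by
          rw [hg, Real.rpow_sub hB0, Real.rpow_one]
          field_simp
        have h4 : (B : ℝ) ^ (1 - κ / D) ≤ (B : ℝ) ^ (1 - min 1 (κ / D)) :=
          Real.rpow_le_rpow_of_exponent_le hB1 (by linarith [min_le_right 1 (κ / D)])
        have h5 : (1 : ℝ) ≤ (B : ℝ) ^ (1 - min 1 (κ / D)) :=
          Real.one_le_rpow hB1 (by linarith [min_le_left 1 (κ / D)])
        rw [h3] at h2
        nlinarith [mul_le_mul_of_nonneg_left h4 (by positivity : (0 : ℝ) ≤ (a : ℝ) ^ r)])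
    exact ⟨min 1 (κ / D), C, by positivity, hC⟩

end Pool.Agent.N262.DR
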